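import Pool.Agent.H88.W.WYB
import Pool.Agent.H21.V.VFX

/-!
Theorem W, board lvw_modules: row WFX.
-/

set_option autoImplicit false

open MeasureTheory ProbabilityTheory Filter Topology Finset
open scoped Nat ENNReal

namespace Pool.Agent.H88.W

open Pool.Agent.H83.V
open Pool.Agent.H24.T2 (Pset)
open Pool.Agent.H67.AG (avgP Av Inv)
open Pool.Agent.H28.LF (LX Xi LY Yi shX lX lY xiY LwY ptS SysY)
open Pool.Agent.H21.V (FS fs_meas fs_inv fs_of_tendsto eX_meas eX_bd av_meas)

theorem pf_WFX (hB : Pool.Agent.H40.AG.T_BK) (hG : T_GDL) : T_WFX := by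
  classical
  intro z m I γ η δ PX P hPX hmp hS hη hK
  haveI := hPX
  haveI := hS.prob
  have hem := eX_meas hG z I
  have heb := eX_bd z I
  refine ⟨FS shX (eX z I) (3 / 2 * η), fs_meas shX hem _, fs_inv shX heb _, ?_, ?_⟩
  · intro ν hν hνmp hνF
    have hbk := hB Xi ν shX 1 (eX z I) hνmp hem ⟨1, heb⟩
    have hin : ∀ᵐ ξ ∂ν, ξ ∈ FS shX (eX z I) (3 / 2 * η) := by
      refine (mem_ae_iff_prob_eq_one (fs_meas shX hem _)).2 ?_
      rw [measureReal_def] at hνF
      rw [← ENNReal.toReal_one] at hνF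
      exact (ENNReal.toReal_eq_toReal_iff' (measure_ne_top _ _) ENNReal.one_ne_top).1 hνF
    have hle : ∀ᵐ ξ ∂ν, (ν[eX z I | Inv shX 1]) ξ ≤ 3 / 2 * η := by
      filter_upwards [hbk, hin] with ξ h1 h2
      exact (fs_of_tendsto shX h1).1 h2
    have h1 : ∫ ξ, (ν[eX z I | Inv shX 1]) ξ ∂ν = ∫ ξ, eX z I ξ ∂ν :=
      integral_condExp (Pool.Agent.H40.AG.inv_le shX 1)
    rw [← h1]
    have h2 : ∫ ξ, (ν[eX z I | Inv shX 1]) ξ ∂ν ≤ ∫ _, 3 / 2 * η ∂ν :=
      integral_mono_ae integrable_condExp (integrable_const _) hle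
    simpa using h2
  · intro k hk
    have hbk := hB Xi PX shX 1 (eX z I) hmp hem ⟨1, heb⟩
    have hprime : ∀ p ∈ Pset 2 k, p.Prime := by
      intro p hp
      unfold Pset at hp
      exact (Finset.mem_filter.1 hp).2.1
    have hall : ∀ᵐ ω ∂P, ∀ p ∈ Pset 2 k, Tendsto (fun n => Av shX 1 n (eX z I) (xiY p ω)) atTop
        (𝓝 ((PX[eX z I | Inv shX 1]) (xiY p ω))) := by
      rw [Finset.eventually_all]
      intro p hp
      exact (hS.law p (hprime p hp)).quasiMeasurePreserving.ae hbk
    let A : ℕ → Set Yi := fun K => {ω | γ ≤ avgP 2 k fun p =>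
      if Av shX 1 K (eX z I) (xiY p ω) ≤ η then (1 : ℝ) else 0}
    have hA : ∀ K, MeasurableSet (A K) := by
      intro K
      show MeasurableSet {ω | γ ≤ avgP 2 k fun p =>
        if Av shX 1 K (eX z I) (xiY p ω) ≤ η then (1 : ℝ) else 0}
      rw [avgP_set k γ fun p ω => Av shX 1 K (eX z I) (xiY p ω) ≤ η]
      refine Finset.measurableSet_biUnion _ fun s _ => ?_
      refine Finset.measurableSet_biInter _ fun p _ => ?_
      exact measurableSet_le ((av_meas shX K hem).comp (cont_xiY p).measurable) measurable_const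
    let B : ℕ → Set Yi := fun n => ⋃ K : ℕ, A (n + 1 + K)
    have hBm : ∀ n, MeasurableSet (B n) := fun n => MeasurableSet.iUnion fun K => hA _
    have hBa : Antitone B := by
      intro n n' hnn ω hω
      obtain ⟨K, hK'⟩ := Set.mem_iUnion.1 hω
      refine Set.mem_iUnion.2 ⟨n' + K - n, ?_⟩
      have : n + 1 + (n' + K - n) = n' + 1 + K := by omega
      rw [this]
      exact hK'
    have hlim := tendsto_measure_iInter_atTop (μ := P)
      (fun n => (hBm n).nullMeasurableSet) hBa ⟨0, measure_ne_top _ _⟩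
    have hge : ∀ n, ENNReal.ofReal δ ≤ P (B n) := by
      intro n
      have h1 : δ ≤ P.real (A (n + 1 + 0)) := hK _ k (by omega) hk
      have h2 : P (A (n + 1 + 0)) ≤ P (B n) :=
        measure_mono (Set.subset_iUnion (fun K => A (n + 1 + K)) 0)
      refine le_trans ?_ h2
      exact ENNReal.ofReal_le_of_le_toReal h1
    have h3 : ENNReal.ofReal δ ≤ P (⋂ n, B n) := ge_of_tendsto' hlim hge
    have h4 : P (⋂ n, B n) ≤ P {ω | γ ≤ avgP 2 k fun p =>
        if xiY p ω ∈ FS shX (eX z I) (3 / 2 * η) then (1 : ℝ) else 0} := by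
      apply measure_mono_ae
      filter_upwards [hall] with ω hω
      intro hmem
      change γ ≤ avgP 2 k fun p =>
        if xiY p ω ∈ FS shX (eX z I) (3 / 2 * η) then (1 : ℝ) else 0
      have hinf : ∃ᶠ K in atTop, ω ∈ A K := by
        rw [frequently_atTop]
        intro n
        obtain ⟨K, hK'⟩ := Set.mem_iUnion.1 (Set.mem_iInter.1 hmem n)
        exact ⟨n + 1 + K, by omega, hK'⟩
      -- one set of primes occurs infinitely often
      obtain ⟨s, hs, hsK⟩ : ∃ s ∈ big k γ, ∃ᶠ K in atTop, ∀ p ∈ s,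
          Av shX 1 K (eX z I) (xiY p ω) ≤ η := by
        by_contra hcon
        push Not at hcon
        have h5 : ∀ᶠ K in atTop, ∀ s ∈ big k γ, ¬ ∀ p ∈ s,
            Av shX 1 K (eX z I) (xiY p ω) ≤ η := by
          rw [Finset.eventually_all]
          intro s hs
          have h6 := hcon s hs
          filter_upwards [h6] with K hK' h7
          obtain ⟨p, hp, hlt⟩ := hK'
          exact absurd (h7 p hp) (not_le.2 hlt)
        obtain ⟨K, h8, h9⟩ := (hinf.and_eventually h5).exists
        have h10 : ω ∈ ⋃ s ∈ big k γ, ⋂ p ∈ s,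
            {ω | Av shX 1 K (eX z I) (xiY p ω) ≤ η} := by
          rw [← avgP_set k γ fun p ω => Av shX 1 K (eX z I) (xiY p ω) ≤ η]
          exact h8
        simp only [Set.mem_iUnion, Set.mem_iInter, Set.mem_ofPred_eq] at h10
        obtain ⟨s, hs, h11⟩ := h10
        exact h9 s hs h11
      have hs' := hs
      rw [big, Finset.mem_filter, Finset.mem_powerset] at hs'
      rw [avgP_ind]
      refine hs'.2.trans (div_le_div_of_nonneg_right ?_ (Nat.cast_nonneg _))
      have : s.card ≤ ((Pset 2 k).filter fun p => xiY p ω ∈ FS shX (eX z I) (3 / 2 * η)).card := by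
        apply Finset.card_le_card
        intro p hp
        rw [Finset.mem_filter]
        refine ⟨hs'.1 hp, ?_⟩
        have h5 := hω p (hs'.1 hp)
        rw [fs_of_tendsto shX h5]
        have h6 := le_of_tendsto_of_frequently h5 (hsK.mono fun K hK' => hK' p hp)
        linarith
      exact_mod_cast this
    have h6 := h3.trans h4
    exact (ENNReal.ofReal_le_iff_le_toReal (measure_ne_top _ _)).1 h6

end Pool.Agent.H88.W
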