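import Pool.Agent.H83.V.TW
import Pool.Agent.H35.V.VSX

/-!
Theorem W, board lvw_modules: row WYB.
-/

set_option autoImplicit false

open MeasureTheory ProbabilityTheory Filter Topology Finset
open scoped Nat ENNReal

namespace Pool.Agent.H88.W

open Pool.Agent.H83.V
open Pool.Agent.H24.T2 (Pset)
open Pool.Agent.H28.MCL (ldB Aw)
open Pool.Agent.H67.AG (avgP Av)
open Pool.Agent.H28.LF (LX Xi LY Yi shX lX lY xiY LwY ptS)

open Classical in
theorem avgP_ind (k : ℕ) (Q : ℕ → Prop) : avgP 2 k (fun p => if Q p then (1 : ℝ) else 0) =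
    (((Pset 2 k).filter Q).card : ℝ) / ((Pset 2 k).card : ℝ) := by
  unfold avgP
  rw [Finset.sum_boole]

open Classical in
theorem avgP_mono (k : ℕ) {Q Q' : ℕ → Prop} (h : ∀ p ∈ Pset 2 k, Q p → Q' p) :
    avgP 2 k (fun p => if Q p then (1 : ℝ) else 0) ≤
      avgP 2 k (fun p => if Q' p then (1 : ℝ) else 0) := by
  rw [avgP_ind, avgP_ind]
  refine div_le_div_of_nonneg_right ?_ (Nat.cast_nonneg _)
  have : ((Pset 2 k).filter Q).card ≤ ((Pset 2 k).filter Q').card := by
    apply Finset.card_le_card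
    intro p hp
    rw [Finset.mem_filter] at hp ⊢
    exact ⟨hp.1, h p hp.1 hp.2⟩
  exact_mod_cast this

open Classical in
/-- the sets of primes which are large enough -/
noncomputable def big (k : ℕ) (γ : ℝ) : Finset (Finset ℕ) :=
  (Pset 2 k).powerset.filter fun s => γ ≤ (s.card : ℝ) / ((Pset 2 k).card : ℝ)

open Classical in
theorem avgP_set {Ω : Type} (k : ℕ) (γ : ℝ) (Q : ℕ → Ω → Prop) :
    {ω | γ ≤ avgP 2 k fun p => if Q p ω then (1 : ℝ) else 0} =
      ⋃ s ∈ big k γ, ⋂ p ∈ s, {ω | Q p ω} := by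
  ext ω
  simp only [Set.mem_ofPred_eq, Set.mem_iUnion, Set.mem_iInter]
  constructor
  · intro h
    rw [avgP_ind] at h
    refine ⟨(Pset 2 k).filter fun p => Q p ω, ?_, ?_⟩
    · rw [big, Finset.mem_filter, Finset.mem_powerset]
      exact ⟨Finset.filter_subset _ _, h⟩
    · intro p hp
      exact (Finset.mem_filter.1 hp).2
  · rintro ⟨s, hs, hQ⟩
    rw [big, Finset.mem_filter, Finset.mem_powerset] at hs
    rw [avgP_ind]
    refine hs.2.trans (div_le_div_of_nonneg_right ?_ (Nat.cast_nonneg _))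
    have : s.card ≤ ((Pset 2 k).filter fun p => Q p ω).card := by
      apply Finset.card_le_card
      intro p hp
      rw [Finset.mem_filter]
      exact ⟨hs.1 hp, hQ p hp⟩
    exact_mod_cast this

theorem cont_xiY (p : ℕ) : Continuous (xiY p) := by
  unfold xiY
  fun_prop

theorem xiY_pt (τ : ℕ → ℕ → Bool) (p n : ℕ) : xiY p (ptS (lY τ) n) = ptS (lX τ) (n / p) := by
  unfold xiY
  have h : ptS (lY τ) n 0 = lY τ n := by unfold ptS; simp
  rw [h]
  rfl

theorem pf_WYB (hG : T_GDL) : T_WYB := by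
  classical
  intro z m I γ η δ U x y τ P _ hP K k _ h
  set C : Set Yi := {ω | γ ≤ avgP 2 k fun p => if Av shX 1 K (eX z I) (xiY p ω) ≤ η then (1 : ℝ)
    else 0} with hC
  have hclosed : IsClosed C := by
    rw [hC, avgP_set k γ fun p ω => Av shX 1 K (eX z I) (xiY p ω) ≤ η]
    refine isClosed_biUnion_finset fun s _ => ?_
    refine isClosed_biInter fun p _ => ?_
    exact isClosed_le ((Pool.Agent.H35.V.cont_Av hG z I K).comp (cont_xiY p)) continuous_const
  refine h.trans (le_trans (le_of_eq ?_) (hP.cls C hclosed))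
  congr 1
  ext n
  rw [hC]
  simp only [Set.mem_ofPred_eq]
  have : (fun p : ℕ => if Av shX 1 K (eX z I) (xiY p (ptS (lY τ) n)) ≤ η then (1 : ℝ) else 0) =
      fun p : ℕ => if aN z I τ K (n / p) ≤ η then (1 : ℝ) else 0 := by
    funext p
    rw [xiY_pt, Pool.Agent.H35.V.Av_pt]
  rw [this]

end Pool.Agent.H88.W
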